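import Pool.Agent.H515R2.PP.Final

/-!
# Recognition of probe perfect graphs is `NP`-hard

The problem of deciding whether a finite simple graph, given by its adjacency matrix and without
a partition into probes and non-probes, is a probe perfect graph is `NP`-hard; consequently there
is no polynomial-time algorithm for it unless `P = NP`.

The reduction is from 3-colourability.  A base gadget with 7 vertices forces, in every valid
partition, two special vertices `a`, `b` to be non-probes that are joined in the completion.
The other gadgets consist of main vertices, solid edges, and dotted edges (edges subdivided once);
a path of dotted edges from `a` to `b` closes to an odd cycle, so that it must contain a further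
non-probe among its main vertices (a perfect graph has no odd hole).  In the
positive case the completion is a graph which is 2-coloured outside an independent set of a
special form, and it is proved perfect directly.
-/

namespace Pool.Agent.Results.MP_698553_lc.RecognitionNPHard

open Pool.Agent.NPC Pool.Agent.H515R2.PP Pool.Agent.H692R2

/-- **Recognition of probe perfect graphs is `NP`-hard**, and a polynomial-time algorithm for it
would give `P = NP`. -/
theorem result :
    NPHardP (fun G : FinGraph => ProbePerfect G.graph) ∧
    ((∃ A : List Bool → List Bool, PolyTime A ∧ ∀ (n : ℕ) (G : SimpleGraph (Fin n)),
      A (bits (⟨n, G⟩ : FinGraph)) = [true] ↔ ProbePerfect G) →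
        ∀ L : Set (List Bool), InNP L → InClassP L) := by
  refine ⟨hardI_probePerfect.toNPHardP, ?_⟩
  rintro ⟨A, hA, hA'⟩ L hL
  obtain ⟨f, hf, hfL⟩ := hardI_probePerfect L hL
  refine ⟨fun x => A (bits (f x)),
    Pool.Agent.H642R2.TMSim.polyTime_comp hA (PC.toPolyTime hf), fun x => ?_⟩
  rw [hfL x]
  exact (hA' (f x).n (f x).graph).symm

end Pool.Agent.Results.MP_698553_lc.RecognitionNPHard
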